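import Pool.Agent.J6H58.MC.Stm2

/-!
# The case `m = 0`, and the length of the added axiom
-/

set_option autoImplicit false

namespace Pool.Agent.J6H50.MC

open Pool.Agent.J6H58.MC
open Pool.Agent.TH672 (Fm Str upd varStr num digits LogK ReplK Sw Pv upd_self upd_same upd_ne
  upd_upd upd_comm)
open Pool.Agent.TH636.BC (Fml Step IsProof str strs Proves code robinson Arith PrRel)
open Pool.Agent.TH197.J1545 (digits_zero sat_proves strs_cons code_inj)
open Pool.Agent.TH838.J1549 (Q exists_Q sat_cong closed_robinson pv_proof)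

/-- A completeness argument: a closed formula which follows semantically from a theorem of
Robinson arithmetic is a theorem of Robinson arithmetic. -/
theorem proves_from {φ ψ : Fml} (hφ : φ.Closed) {k : ℕ} (hψ : Proves robinson k ψ)
    (h : ∀ (S : Str ℕ) (_ : Q S) (v : ℕ → S.M), Fm.Sat S ψ v → Fm.Sat S φ v) :
    ∃ k, Proves robinson k φ := by
  obtain ⟨π, hπ⟩ := pv_proof (Pool.Agent.TH690.J100.completeness robinson φ
    closed_robinson hφ fun S v hS => by
      obtain ⟨q⟩ := exists_Q v hS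
      refine h S q v (sat_proves (fun χ hχ w => ?_) hψ v)
      exact (sat_cong fun x hx => absurd hx (closed_robinson χ hχ x)).1 (hS χ hχ))
  exact ⟨_, π, hπ, le_rfl⟩

theorem step_sub {A B π : List Fml} (h : ∀ φ ∈ A, φ ∈ B) {φ : Fml} (hs : Step A π φ) :
    Step B π φ := by
  rcases hs with h1 | h1 | h1 | h1
  · exact .inl (h _ h1)
  · exact .inr (.inl h1)
  · exact .inr (.inr (.inl h1))
  · exact .inr (.inr (.inr h1))

theorem isProof_sub {A B : List Fml} (h : ∀ φ ∈ A, φ ∈ B) : ∀ {π : List Fml}, IsProof A π →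
    IsProof B π
  | [], _ => trivial
  | _ :: _, ⟨h1, h2⟩ => ⟨isProof_sub h h1, step_sub h h2⟩

theorem proves_sub {A B : List Fml} (h : ∀ φ ∈ A, φ ∈ B) {k : ℕ} {φ : Fml}
    (hp : Proves A k φ) : Proves B k φ := by
  obtain ⟨π, h1, h2⟩ := hp
  exact ⟨π, isProof_sub h h1, h2⟩

theorem str_pos (φ : Fml) : 0 < (str φ).length := by
  cases φ <;> simp [str]

theorem not_proves_zero (Γ : List Fml) (φ : Fml) : ¬ Proves Γ 0 φ := by
  rintro ⟨π, _, h⟩
  rw [strs_cons, List.length_append] at h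
  have := str_pos φ
  omega

theorem small1 {P : Fml} (hP : Num P) {A : List Fml} (Γ : List Fml)
    (hA : ∀ φ ∈ robinson, φ ∈ A) : ∃ k, Proves A k (conAtD P Γ 0) := by
  have hn : ¬ PrRel (code Γ) 0 (code [Fm.bot]) := by
    rintro ⟨Δ, φ, _, _, h⟩
    exact not_proves_zero _ _ h
  obtain ⟨k, hk⟩ := hP.neg _ _ _ hn
  have f0 : ∀ x, P.neg.Free x → x = 2 ∨ x = 3 ∨ x = 4 := fun x hx => by
    simp only [Fm.neg, Fm.Free, or_false] at hx
    exact hP.free x hx
  have g0 : ¬ P.neg.Free 0 := fun h => by have := f0 0 h; omega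
  have g1 : ¬ P.neg.Free 1 := fun h => by have := f0 1 h; omega
  have d0 : ∀ (x n : ℕ) (φ : Fml), ¬ φ.Free 0 → ¬ (dnum x n φ).Free 0 := fun x n φ h1 h2 =>
    h1 (free_dnum h2).2
  have d1 : ∀ (x n : ℕ) (φ : Fml), ¬ φ.Free 1 → ¬ (dnum x n φ).Free 1 := fun x n φ h1 h2 =>
    h1 (free_dnum h2).2
  have hc : (conAtD P Γ 0).Closed := by
    intro x hx
    have h1 := free_dnum hx
    have h2 := free_dnum h1.2
    have h3 := free_dnum h2.2
    have := f0 x h3.2
    omega
  obtain ⟨k', hk'⟩ := proves_from hc hk fun S q v h => by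
    rw [sat_dnum q (by omega) (d0 _ _ _ (d0 _ _ _ g0)) (d1 _ _ _ (d1 _ _ _ g1)),
      sat_dnum q (by omega) (d0 _ _ _ g0) (d1 _ _ _ g1), sat_dnum q (by omega) g0 g1] at h
    unfold conAtD conD
    rw [sat_dnum q (by omega) (d0 _ _ _ (d0 _ _ _ g0)) (d1 _ _ _ (d1 _ _ _ g1)),
      sat_dnum q (by omega) (d0 _ _ _ g0) (d1 _ _ _ g1), sat_dnum q (by omega) g0 g1]
    refine (sat_cong fun x _ => ?_).1 h
    simp only [upd]
    split_ifs <;> first | rfl | omega
  exact ⟨k', proves_sub hA hk'⟩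

theorem small2 (P : Fml) (A : List Fml) : ∃ C, ∀ n : ℕ,
    (str (conAtD P A (2 ^ n))).length ≤ 100 * n + C := by
  refine ⟨(str (conAtD P A (2 ^ 0))).length + (pz 3).length + (pd 3 true).length +
    (pz 2).length + ((strs A).flatMap (pd 2)).length + (str (Xi P)).length, fun n => ?_⟩
  cases n with
  | zero => omega
  | succ k =>
    rw [str_conAtD]
    have e : (List.replicate k (pd 3 false)).flatten.length = k * 43 := by
      simp [pd, str, varStr]
    simp only [List.length_append, e]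
    omega

/-- MODULE 10. -/
theorem smallQ : SmallT := fun P hP =>
  ⟨fun _ Γ hA => small1 hP Γ hA, fun A => small2 P A⟩

end Pool.Agent.J6H50.MC
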